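import Pool.Agent.HAR.Stmts

namespace Pool.Agent.HAR.H95

open Pool.Agent.HAR

theorem cos : CosStmt := by
  intro z
  have hw : |z - round z| ≤ 1 / 2 := abs_sub_round z
  have h1 : |Real.cos (Real.pi * z)| = |Real.cos (Real.pi * (z - round z))| := by
    have e : Real.pi * z = Real.pi * (z - round z) + (round z : ℤ) * Real.pi := by ring
    rw [e, Real.cos_add_int_mul_pi, abs_mul]
    simp
  have hpi := Real.pi_pos
  have hcos0 : 0 ≤ Real.cos (Real.pi * (z - round z)) := by
    apply Real.cos_nonneg_of_mem_Icc
    have := abs_le.mp hw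
    constructor
    · nlinarith [this.1]
    · nlinarith [this.2]
  have h2 : Real.cos (Real.pi * (z - round z)) ≤ 1 - 2 * nd z ^ 2 := by
    have hb : |Real.pi * (z - round z)| ≤ Real.pi := by
      rw [abs_mul, abs_of_pos hpi]
      nlinarith [abs_nonneg (z - round z)]
    have := Real.cos_le_one_sub_mul_cos_sq hb
    refine this.trans (le_of_eq ?_)
    unfold nd
    rw [sq_abs]
    field_simp
  rw [h1, abs_of_nonneg hcos0]
  refine h2.trans ?_
  have := Real.add_one_le_exp (-(2 * nd z ^ 2))
  linarith

end Pool.Agent.HAR.H95
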